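import Pool.Agent.V11194.BiHeavy.Glob

set_option autoImplicit false

/-!
# A maximal planar graph in which every orientation has a bi-heavy vertex

We exhibit a planar graph on 58 vertices (given by an explicit straight-line drawing with integer
coordinates) such that every orientation has a vertex with in-degree and out-degree at least 2, and
extend it to a maximal planar graph.
-/

namespace Pool.Agent.Results.MP_7589f8_co.BiHeavy

open Pool.Agent.V11194.BiHeavy

/-- `G` is planar: it can be drawn in the plane. The vertices are mapped to distinct points, every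
edge `uv` is mapped to a simple arc `γ u v '' [0, 1]` from `f u` to `f v` containing no other
vertex, and the arcs of two distinct edges meet only in points that are vertices. -/
def IsPlanar {V : Type} (G : SimpleGraph V) : Prop :=
  ∃ (f : V → ℝ × ℝ) (γ : V → V → ℝ → ℝ × ℝ), Function.Injective f ∧
    (∀ u v, G.Adj u v → ContinuousOn (γ u v) (Set.Icc 0 1) ∧
      Set.InjOn (γ u v) (Set.Icc 0 1) ∧ γ u v 0 = f u ∧ γ u v 1 = f v ∧
      γ u v '' Set.Icc 0 1 = γ v u '' Set.Icc 0 1) ∧
    (∀ u v w, G.Adj u v → f w ∈ γ u v '' Set.Icc 0 1 → w = u ∨ w = v) ∧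
    (∀ u v u' v', G.Adj u v → G.Adj u' v' → s(u, v) ≠ s(u', v') →
      ∀ p, p ∈ γ u v '' Set.Icc 0 1 → p ∈ γ u' v' '' Set.Icc 0 1 → p ∈ Set.range f)

/-- `G` is maximal planar: it is planar and no edge can be added to it with the graph staying
planar. -/
def IsMaximalPlanar {V : Type} (G : SimpleGraph V) : Prop :=
  IsPlanar G ∧ ∀ u v, u ≠ v → ¬ G.Adj u v → ¬ IsPlanar (G ⊔ SimpleGraph.edge u v)

/-- `D` is an orientation of `G`: every edge gets exactly one of its two directions. -/
def IsOrientation {V : Type} (G : SimpleGraph V) (D : V → V → Prop) : Prop :=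
  (∀ u v, D u v → G.Adj u v) ∧ ∀ u v, G.Adj u v → (D u v ∧ ¬ D v u) ∨ (D v u ∧ ¬ D u v)

/-- Out-degree. -/
noncomputable def outDeg {V : Type} (D : V → V → Prop) (v : V) : ℕ := {w | D v w}.ncard

/-- In-degree. -/
noncomputable def inDeg {V : Type} (D : V → V → Prop) (v : V) : ℕ := {w | D w v}.ncard

/-- `f(D, k)`: the number of vertices with in-degree and out-degree at least `k`. -/
noncomputable def fD {V : Type} (D : V → V → Prop) (k : ℕ) : ℕ :=
  {v | k ≤ outDeg D v ∧ k ≤ inDeg D v}.ncard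

/-- `f(G, k)`: the minimum of `f(D, k)` over all orientations `D` of `G`. -/
noncomputable def fG {V : Type} (G : SimpleGraph V) (k : ℕ) : ℕ :=
  sInf {m | ∃ D, IsOrientation G D ∧ m = fD D k}

/-! ### The graph -/

/-- The 58-vertex graph. -/
def G58 : SimpleGraph (Fin 58) where
  Adj u v := (u.val, v.val) ∈ L ∨ (v.val, u.val) ∈ L
  symm := ⟨fun _ _ h => h.symm⟩
  loopless := ⟨fun u h => by
    have : (u.val, u.val) ∈ L := by rcases h with h | h <;> exact h
    have := (L_lt _ this).1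
    exact lt_irrefl _ this⟩

/-- Every orientation of a supergraph of `G58` has a bi-heavy vertex. -/
theorem exists_biheavy (H : SimpleGraph (Fin 58)) (hH : G58 ≤ H) (D : Fin 58 → Fin 58 → Prop)
    (hD : IsOrientation H D) : ∃ v, 2 ≤ outDeg D v ∧ 2 ≤ inDeg D v := by
  classical
  by_contra hcon
  push Not at hcon
  -- the colouring
  let χ : ℕ → Bool := fun i => if h : i < 58 then decide (outDeg D ⟨i, h⟩ < 2) else false
  let O : ℕ → ℕ → Prop := fun v w => ∃ (hv : v < 58) (hw : w < 58),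
    G58.Adj ⟨v, hv⟩ ⟨w, hw⟩ ∧ χ v = χ w ∧
      ((χ v = true ∧ D ⟨v, hv⟩ ⟨w, hw⟩) ∨ (χ v = false ∧ D ⟨w, hw⟩ ⟨v, hv⟩))
  have hχ : ∀ (v : Fin 58), χ v.val = decide (outDeg D v < 2) := fun v => by
    simp only [χ, v.isLt, dif_pos]
  have uniq_out : ∀ v a b : Fin 58, outDeg D v < 2 → D v a → D v b → a = b := by
    intro v a b hv ha hb
    unfold outDeg at hv
    have h1 : {w | D v w}.ncard ≤ 1 := by omega
    exact (Set.ncard_le_one (Set.toFinite _)).1 h1 a ha b hb
  have uniq_in : ∀ v a b : Fin 58, inDeg D v < 2 → D a v → D b v → a = b := by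
    intro v a b hv ha hb
    unfold inDeg at hv
    have h1 : {w | D w v}.ncard ≤ 1 := by omega
    exact (Set.ncard_le_one (Set.toFinite _)).1 h1 a ha b hb
  refine core (χ := χ) (O := O) ⟨?_, ?_, ?_, ?_⟩
  · -- each vertex owns at most one edge
    rintro v w w' ⟨hv, hw, hadj, hc, h⟩ ⟨hv', hw', hadj', hc', h'⟩
    have hχv := hχ ⟨v, hv⟩
    simp only at hχv
    rcases h with ⟨hcv, hd⟩ | ⟨hcv, hd⟩
    · rcases h' with ⟨_, hd'⟩ | ⟨hcv', _⟩
      · rw [hcv] at hχv
        have := uniq_out _ _ _ (of_decide_eq_true hχv.symm) hd hd'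
        simpa using this
      · rw [hcv] at hcv'; exact absurd hcv' (by simp)
    · rcases h' with ⟨hcv', _⟩ | ⟨_, hd'⟩
      · rw [hcv] at hcv'; exact absurd hcv' (by simp)
      · rw [hcv] at hχv
        have h2 : ¬ outDeg D ⟨v, hv⟩ < 2 := of_decide_eq_false hχv.symm
        have h3 := hcon ⟨v, hv⟩ (by omega)
        have := uniq_in _ _ _ h3 hd hd'
        simpa using this
  · -- each monochromatic edge is owned by an endpoint
    rintro ⟨a, b⟩ he hc
    simp only at hc
    have hlt := L_lt _ he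
    simp only at hlt
    have ha : a < 58 := by omega
    have hb : b < 58 := by omega
    have hadj : G58.Adj ⟨a, ha⟩ ⟨b, hb⟩ := Or.inl he
    rcases hD.2 _ _ (hH hadj) with ⟨h1, _⟩ | ⟨h1, _⟩
    · cases hca : χ a with
      | true => exact Or.inl ⟨ha, hb, hadj, hc, Or.inl ⟨hca, h1⟩⟩
      | false => exact Or.inr ⟨hb, ha, hadj.symm, hc.symm, Or.inr ⟨hc ▸ hca, h1⟩⟩
    · cases hca : χ a with
      | true => exact Or.inr ⟨hb, ha, hadj.symm, hc.symm, Or.inl ⟨hc ▸ hca, h1⟩⟩
      | false => exact Or.inl ⟨ha, hb, hadj, hc, Or.inr ⟨hca, h1⟩⟩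
  · -- and by only one endpoint
    rintro v w ⟨hv, hw, hadj, hc, h⟩ ⟨hw', hv', hadj', hc', h'⟩
    have h0 := hD.2 _ _ (hH hadj)
    rcases h with ⟨hcv, hd⟩ | ⟨hcv, hd⟩ <;> rcases h' with ⟨hcw, hd'⟩ | ⟨hcw, hd'⟩
    · tauto
    · rw [hc'] at hcw; rw [hcv] at hcw; exact absurd hcw (by simp)
    · rw [hc'] at hcw; rw [hcv] at hcw; exact absurd hcw (by simp)
    · tauto
  · rintro v w ⟨hv, hw, hadj, hc, _⟩
    exact ⟨hadj, hc⟩

/-! ### The drawing -/

/-- Integer coordinates of the 58 vertices. -/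
def pos : List (ℤ × ℤ) := [(0, 0), (500, 0), (0, 500), (167, 167), (235, 59), (221, 24), (148, 37),
  (137, 66), (322, 63), (243, 115), (271, 105), (339, 69), (319, 85), (250, 99), (285, 90),
  (197, 41), (209, 33), (202, 32), (188, 36), (190, 32), (213, 38), (202, 36), (207, 235),
  (255, 221), (315, 148), (297, 137), (115, 322), (142, 243), (124, 271), (92, 339), (96, 319),
  (151, 250), (125, 285), (262, 197), (258, 209), (266, 202), (277, 188), (278, 190), (249, 213),
  (262, 202), (59, 207), (24, 255), (37, 315), (66, 297), (63, 115), (115, 142), (105, 124),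
  (69, 92), (85, 96), (99, 151), (90, 125), (41, 262), (33, 258), (32, 266), (36, 277), (32, 278),
  (38, 249), (36, 262)]

def P (i : ℕ) : ℤ × ℤ := pos.getD i (0, 0)

def orI (a b c : ℤ × ℤ) : ℤ := (b.1 - a.1) * (c.2 - a.2) - (b.2 - a.2) * (c.1 - a.1)

def sepB (a b c d : ℤ × ℤ) : Bool :=
  (decide (0 < orI a b c) && decide (0 < orI a b d)) ||
  (decide (orI a b c < 0) && decide (orI a b d < 0)) ||
  (decide (0 < orI c d a) && decide (0 < orI c d b)) ||
  (decide (orI c d a < 0) && decide (orI c d b < 0))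

lemma chk_vertex : (L.all fun e => (List.range 58).all fun w =>
    (w == e.1) || (w == e.2) || decide (orI (P e.1) (P e.2) (P w) ≠ 0)) = true := by
  decide +kernel

lemma chk_cross : (L.all fun e => L.all fun e' =>
    (e.1 == e'.1) || (e.1 == e'.2) || (e.2 == e'.1) || (e.2 == e'.2) ||
      sepB (P e.1) (P e.2) (P e'.1) (P e'.2)) = true := by
  decide +kernel

lemma chk_inj : ((List.range 58).all fun u => (List.range 58).all fun v =>
    (u == v) || decide (P u ≠ P v)) = true := by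
  decide +kernel

/-- real coordinates -/
noncomputable def toR (p : ℤ × ℤ) : ℝ × ℝ := ((p.1 : ℝ), (p.2 : ℝ))

noncomputable def orR (a b c : ℝ × ℝ) : ℝ := (b.1 - a.1) * (c.2 - a.2) - (b.2 - a.2) * (c.1 - a.1)

lemma orR_toR (a b c : ℤ × ℤ) : orR (toR a) (toR b) (toR c) = (orI a b c : ℝ) := by
  unfold orR toR orI
  push_cast
  ring

/-- the segment from `a` to `b` -/
noncomputable def seg (a b : ℝ × ℝ) (t : ℝ) : ℝ × ℝ :=
  ((1 - t) * a.1 + t * b.1, (1 - t) * a.2 + t * b.2)

lemma seg_continuous (a b : ℝ × ℝ) : Continuous (seg a b) := by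
  unfold seg
  fun_prop

lemma seg_symm (a b : ℝ × ℝ) : seg a b '' Set.Icc 0 1 = seg b a '' Set.Icc 0 1 := by
  have h : ∀ a b : ℝ × ℝ, seg a b '' Set.Icc 0 1 ⊆ seg b a '' Set.Icc 0 1 := by
    rintro a b _ ⟨t, ht, rfl⟩
    refine ⟨1 - t, ⟨by linarith [ht.2], by linarith [ht.1]⟩, ?_⟩
    unfold seg
    ext <;> simp <;> ring
  exact Set.Subset.antisymm (h a b) (h b a)

lemma orR_seg (a b c d : ℝ × ℝ) (t : ℝ) :
    orR a b (seg c d t) = (1 - t) * orR a b c + t * orR a b d := by
  unfold orR seg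
  ring

lemma orR_seg_self (a b : ℝ × ℝ) (t : ℝ) : orR a b (seg a b t) = 0 := by
  unfold orR seg
  ring

lemma orR_self_left (a b : ℝ × ℝ) : orR a b a = 0 := by unfold orR; ring

lemma not_meet {a b c d : ℝ × ℝ} (h : 0 < orR a b c * orR a b d) {p : ℝ × ℝ}
    (h1 : p ∈ seg a b '' Set.Icc 0 1) (h2 : p ∈ seg c d '' Set.Icc 0 1) : False := by
  obtain ⟨t, ht, rfl⟩ := h1
  obtain ⟨s, hs, hst⟩ := h2
  have e1 := orR_seg a b c d s
  rw [hst, orR_seg_self] at e1
  set x := orR a b c
  set y := orR a b d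
  rcases hs with ⟨hs0, hs1⟩
  have e2 : ((1 - s) * x + s * y) * (x + y) = 0 := by rw [← e1]; ring
  nlinarith [mul_nonneg (sub_nonneg.2 hs1) (sq_nonneg x), mul_nonneg hs0 (sq_nonneg y),
    sq_nonneg x, sq_nonneg y, mul_self_nonneg (x + y), mul_pos h h]

lemma shared {a b c : ℝ × ℝ} (h : orR a b c ≠ 0) {p : ℝ × ℝ}
    (h1 : p ∈ seg a b '' Set.Icc 0 1) (h2 : p ∈ seg a c '' Set.Icc 0 1) : p = a := by
  obtain ⟨t, _, rfl⟩ := h1
  obtain ⟨s, _, hst⟩ := h2
  have e1 := orR_seg a b a c s
  rw [hst, orR_seg_self, orR_self_left, mul_zero, zero_add] at e1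
  have hs : s = 0 := by
    rcases mul_eq_zero.1 e1.symm with h' | h'
    · exact h'
    · exact absurd h' h
  rw [← hst, hs]
  unfold seg
  ext <;> simp

lemma vertex_ne {u v : ℕ} (huv : (u, v) ∈ L) {w : ℕ} (hw : w < 58) (h1 : w ≠ u) (h2 : w ≠ v) :
    orI (P u) (P v) (P w) ≠ 0 := by
  have h := List.all_eq_true.1 (List.all_eq_true.1 chk_vertex _ huv) w (List.mem_range.2 hw)
  simpa [h1, h2] using h

lemma P_inj {u v : ℕ} (hu : u < 58) (hv : v < 58) (h : P u = P v) : u = v := by
  have h' := List.all_eq_true.1 (List.all_eq_true.1 chk_inj u (List.mem_range.2 hu)) v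
    (List.mem_range.2 hv)
  by_contra hne
  simp [hne, h] at h'

lemma orR_ne {a b c : ℤ × ℤ} (h : orI a b c ≠ 0) : orR (toR a) (toR b) (toR c) ≠ 0 := by
  rw [orR_toR]
  exact_mod_cast h

lemma toR_inj {a b : ℤ × ℤ} (h : toR a = toR b) : a = b := by
  unfold toR at h
  have := Prod.mk.inj h
  exact Prod.ext (by exact_mod_cast this.1) (by exact_mod_cast this.2)

/-- two distinct edges of the list meet only in vertices -/
lemma meet {u v u' v' : ℕ} (h : (u, v) ∈ L) (h' : (u', v') ∈ L) (hne : (u, v) ≠ (u', v'))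
    {p : ℝ × ℝ} (h1 : p ∈ seg (toR (P u)) (toR (P v)) '' Set.Icc 0 1)
    (h2 : p ∈ seg (toR (P u')) (toR (P v')) '' Set.Icc 0 1) :
    ∃ w < 58, p = toR (P w) := by
  have l := L_lt _ h
  have l' := L_lt _ h'
  simp only at l l'
  by_cases c1 : u = u'
  · subst c1
    have hv : v' ≠ v := fun hv => hne (by rw [hv])
    exact ⟨u, by omega, shared (orR_ne (vertex_ne h l'.2 (by omega) hv)) h1 h2⟩
  by_cases c2 : u = v'
  · subst c2
    rw [seg_symm (toR (P u'))] at h2
    exact ⟨u, by omega, shared (orR_ne (vertex_ne h (by omega) (Ne.symm c1) (by omega))) h1 h2⟩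
  by_cases c3 : v = u'
  · subst c3
    have hx : orR (toR (P v)) (toR (P v')) (toR (P u)) ≠ 0 :=
      orR_ne (vertex_ne h' (by omega) (by omega) c2)
    rw [seg_symm (toR (P u))] at h1
    exact ⟨v, by omega, shared hx h2 h1⟩
  by_cases c4 : v = v'
  · subst c4
    rw [seg_symm (toR (P u))] at h1
    rw [seg_symm (toR (P u'))] at h2
    have hx : orR (toR (P v)) (toR (P u)) (toR (P u')) ≠ 0 := by
      have := orR_ne (vertex_ne h (w := u') (by omega) (Ne.symm c1) (by omega))
      intro h0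
      apply this
      have e : orR (toR (P u)) (toR (P v)) (toR (P u')) =
          - orR (toR (P v)) (toR (P u)) (toR (P u')) := by
        unfold orR; ring
      rw [e, h0, neg_zero]
    exact ⟨v, by omega, shared hx h1 h2⟩
  · exfalso
    have hh := List.all_eq_true.1 (List.all_eq_true.1 chk_cross _ h) _ h'
    simp only [beq_eq_false_iff_ne.2 c1, beq_eq_false_iff_ne.2 c2, beq_eq_false_iff_ne.2 c3,
      beq_eq_false_iff_ne.2 c4, Bool.false_or] at hh
    unfold sepB at hh
    simp only [Bool.or_eq_true, Bool.and_eq_true, decide_eq_true_eq] at hh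
    rcases hh with ((⟨a, b⟩ | ⟨a, b⟩) | ⟨a, b⟩) | ⟨a, b⟩
    · refine not_meet ?_ h1 h2
      rw [orR_toR, orR_toR]
      exact_mod_cast mul_pos a b
    · refine not_meet ?_ h1 h2
      rw [orR_toR, orR_toR]
      exact_mod_cast mul_pos_of_neg_of_neg a b
    · refine not_meet ?_ h2 h1
      rw [orR_toR, orR_toR]
      exact_mod_cast mul_pos a b
    · refine not_meet ?_ h2 h1
      rw [orR_toR, orR_toR]
      exact_mod_cast mul_pos_of_neg_of_neg a b

theorem G58_planar : IsPlanar G58 := by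
  refine ⟨fun v => toR (P v.val), fun u v => seg (toR (P u.val)) (toR (P v.val)), ?_, ?_, ?_, ?_⟩
  · intro u v h
    exact Fin.ext (P_inj u.isLt v.isLt (toR_inj h))
  · intro u v huv
    refine ⟨(seg_continuous _ _).continuousOn, ?_, ?_, ?_, seg_symm _ _⟩
    · intro s _ t _ hst
      have hne : toR (P u.val) ≠ toR (P v.val) := fun h =>
        huv.ne (Fin.ext (P_inj u.isLt v.isLt (toR_inj h)))
      unfold seg at hst
      obtain ⟨e1, e2⟩ := Prod.mk.inj hst
      by_contra hst'
      apply hne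
      have h1 : (s - t) * ((toR (P v.val)).1 - (toR (P u.val)).1) = 0 := by linear_combination e1
      have h2 : (s - t) * ((toR (P v.val)).2 - (toR (P u.val)).2) = 0 := by linear_combination e2
      have h3 : s - t ≠ 0 := sub_ne_zero.2 hst'
      refine Prod.ext ?_ ?_
      · have := (mul_eq_zero.1 h1).resolve_left h3; linarith
      · have := (mul_eq_zero.1 h2).resolve_left h3; linarith
    · unfold seg; ext <;> simp
    · unfold seg; ext <;> simp
  · intro u v w huv hw
    by_contra hcon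
    push Not at hcon
    have h1 : w.val ≠ u.val := fun h => hcon.1 (Fin.ext h)
    have h2 : w.val ≠ v.val := fun h => hcon.2 (Fin.ext h)
    have key : ∀ a b : ℕ, (a, b) ∈ L → w.val ≠ a → w.val ≠ b →
        toR (P w.val) ∈ seg (toR (P a)) (toR (P b)) '' Set.Icc 0 1 → False := by
      intro a b hab ha hb hmem
      obtain ⟨t, _, ht⟩ := hmem
      have := orR_ne (vertex_ne hab w.isLt ha hb)
      rw [← ht, orR_seg_self] at this
      exact this rfl
    rcases huv with h | h
    · exact key _ _ h h1 h2 hw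
    · simp only at hw
      rw [seg_symm] at hw
      exact key _ _ h h2 h1 hw
  · intro u v u' v' huv huv' hne p h1 h2
    simp only at h1 h2
    have key : ∀ a b a' b' : Fin 58, (a.val, b.val) ∈ L → (a'.val, b'.val) ∈ L →
        s(a, b) ≠ s(a', b') → p ∈ seg (toR (P a.val)) (toR (P b.val)) '' Set.Icc 0 1 →
        p ∈ seg (toR (P a'.val)) (toR (P b'.val)) '' Set.Icc 0 1 →
        p ∈ Set.range fun v : Fin 58 => toR (P v.val) := by
      intro a b a' b' hab hab' hn h3 h4
      have hn' : (a.val, b.val) ≠ (a'.val, b'.val) := by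
        intro h
        obtain ⟨e1, e2⟩ := Prod.mk.inj h
        exact hn (by rw [Fin.ext e1, Fin.ext e2])
      obtain ⟨w, hw, hp⟩ := meet hab hab' hn' h3 h4
      exact ⟨⟨w, hw⟩, hp.symm⟩
    rcases huv with h | h <;> rcases huv' with h' | h'
    · exact key u v u' v' h h' hne h1 h2
    · rw [seg_symm] at h2
      exact key u v v' u' h h' (by rwa [Sym2.eq_swap (a := v')]) h1 h2
    · rw [seg_symm] at h1
      exact key v u u' v' h h' (by rwa [Sym2.eq_swap (a := v)]) h1 h2
    · rw [seg_symm] at h1 h2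
      exact key v u v' u' h h' (by rwa [Sym2.eq_swap (a := v), Sym2.eq_swap (a := v')]) h1 h2

/-- **Disproof of Q1**: there is a maximal planar graph `G` (on 58 vertices) with `f(G, 2) ≥ 1`:
every orientation of `G` has a vertex with in-degree at least 2 and out-degree at least 2. -/
theorem result : ∃ G : SimpleGraph (Fin 58), IsMaximalPlanar G ∧ 1 ≤ fG G 2 ∧
    ∀ D, IsOrientation G D → ∃ v, 2 ≤ outDeg D v ∧ 2 ≤ inDeg D v := by
  classical
  obtain ⟨G, hle, hmax⟩ : ∃ G : SimpleGraph (Fin 58), G58 ≤ G ∧ Maximal IsPlanar G :=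
    Finite.exists_le_maximal G58_planar
  have hbi : ∀ D, IsOrientation G D → ∃ v, 2 ≤ outDeg D v ∧ 2 ≤ inDeg D v :=
    fun D hD => exists_biheavy G hle D hD
  refine ⟨G, ⟨hmax.1, ?_⟩, ?_, hbi⟩
  · intro u v huv hn hpl
    have h1 : G ⊔ SimpleGraph.edge u v ≤ G := hmax.2 hpl le_sup_left
    apply hn
    apply h1
    exact Or.inr (by rw [SimpleGraph.edge_adj]; exact ⟨Or.inl ⟨rfl, rfl⟩, huv⟩)
  · have hne : {m | ∃ D, IsOrientation G D ∧ m = fD D 2}.Nonempty := by
      refine ⟨_, fun u v => G.Adj u v ∧ u < v, ⟨fun u v h => h.1, fun u v h => ?_⟩, rfl⟩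
      rcases lt_trichotomy u v with hlt | heq | hgt
      · exact Or.inl ⟨⟨h, hlt⟩, fun h' => absurd h'.2 (not_lt_of_gt hlt)⟩
      · exact absurd heq h.ne
      · exact Or.inr ⟨⟨h.symm, hgt⟩, fun h' => absurd h'.2 (not_lt_of_gt hgt)⟩
    obtain ⟨D, hD, hm⟩ := Nat.sInf_mem hne
    unfold fG
    rw [hm]
    unfold fD
    obtain ⟨v, hv⟩ := hbi D hD
    exact (Set.ncard_pos (Set.toFinite _)).2 ⟨v, hv⟩

end Pool.Agent.Results.MP_7589f8_co.BiHeavy
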